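import Mathlib

/-!
# `B⁺(κ)` is homeomorphic to all its truncations `B(κ,0,t)`, `0 < t < 1`

We group the coordinates in blocks of `n` elements, where `n * t > 1`.  Inside one block the sets
`{x ∈ [0,1]^n : ∑ x ≤ 1}` and `{x ∈ [0,t]^n : ∑ x ≤ 1}` are homeomorphic by a map which preserves
the sum of the coordinates (a radial map from the barycentre in every level set of the sum), and
applying this map in every block gives the homeomorphism.
-/

set_option linter.unusedSectionVars false

open scoped ENNReal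
open Finset

namespace Pool.Agent.Results.MP_ca7a0e_gt.PositiveTruncation

universe u

/-- The space `B(κ,a,b)` of the problem, with an arbitrary index set `ι` in the role of `κ`:
all `x ∈ ℝ^ι` with `∑ |x i| ≤ 1` (the sum is taken in `[0,∞]`) and `a i ≤ x i ≤ b i` for all `i`.
As a subset of `ι → ℝ` it carries the subspace topology of the product topology. -/
def B (ι : Type u) (a b : ι → ℝ) : Set (ι → ℝ) :=
  {x | (∑' i, ENNReal.ofReal |x i|) ≤ 1 ∧ ∀ i, a i ≤ x i ∧ x i ≤ b i}

section block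

variable {n : ℕ} [NeZero n]

/-- average -/
noncomputable def avg (x : Fin n → ℝ) : ℝ := (∑ i, x i) / n

/-- largest deviation below the average -/
noncomputable def dn (x : Fin n → ℝ) : ℝ :=
  univ.sup' univ_nonempty (fun i => avg x - x i)

/-- largest deviation above the average -/
noncomputable def up (x : Fin n → ℝ) : ℝ :=
  univ.sup' univ_nonempty (fun i => x i - avg x)

/-- rescaling around the average -/
noncomputable def resc (c : ℝ) (x : Fin n → ℝ) : Fin n → ℝ :=
  fun i => avg x + c * (x i - avg x)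

lemma ncast_pos : (0 : ℝ) < n := by
  have : n ≠ 0 := NeZero.ne n
  positivity

lemma sum_eq (x : Fin n → ℝ) : ∑ i, x i = n * avg x := by
  have := ncast_pos (n := n)
  unfold avg; field_simp

lemma sum_sub_avg (x : Fin n → ℝ) : ∑ i, (x i - avg x) = 0 := by
  rw [sum_sub_distrib, sum_eq]; simp

lemma sum_resc (c : ℝ) (x : Fin n → ℝ) : ∑ i, resc c x i = ∑ i, x i := by
  unfold resc
  rw [sum_add_distrib, ← mul_sum, sum_sub_avg, sum_eq x]; simp

lemma avg_resc (c : ℝ) (x : Fin n → ℝ) : avg (resc c x) = avg x := by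
  unfold avg; rw [sum_resc]

lemma dn_resc {c : ℝ} (hc : 0 ≤ c) (x : Fin n → ℝ) : dn (resc c x) = c * dn x := by
  unfold dn
  rw [Finset.mul₀_sup' hc]
  congr 1
  funext i
  rw [avg_resc]; simp only [resc]; ring

lemma up_resc {c : ℝ} (hc : 0 ≤ c) (x : Fin n → ℝ) : up (resc c x) = c * up x := by
  unfold up
  rw [Finset.mul₀_sup' hc]
  congr 1
  funext i
  rw [avg_resc]; simp only [resc]; ring

lemma resc_resc (c d : ℝ) (x : Fin n → ℝ) : resc c (resc d x) = resc (c * d) x := by
  funext i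
  have : resc c (resc d x) i = avg (resc d x) + c * (resc d x i - avg (resc d x)) := rfl
  rw [this, avg_resc]
  simp only [resc]
  ring

lemma resc_one (x : Fin n → ℝ) : resc 1 x = x := by
  funext i; simp [resc]

lemma le_dn (x : Fin n → ℝ) (i : Fin n) : avg x - x i ≤ dn x :=
  Finset.le_sup' (fun i => avg x - x i) (mem_univ i)

lemma le_up (x : Fin n → ℝ) (i : Fin n) : x i - avg x ≤ up x :=
  Finset.le_sup' (fun i => x i - avg x) (mem_univ i)

lemma dn_nonneg (x : Fin n → ℝ) : 0 ≤ dn x := by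
  by_contra h
  push Not at h
  have h1 : ∀ i, 0 < x i - avg x := fun i => by have := le_dn x i; linarith
  have h2 : 0 < ∑ i, (x i - avg x) := sum_pos (fun i _ => h1 i) univ_nonempty
  rw [sum_sub_avg] at h2; exact lt_irrefl _ h2

lemma up_nonneg (x : Fin n → ℝ) : 0 ≤ up x := by
  by_contra h
  push Not at h
  have h1 : ∀ i, x i - avg x < 0 := fun i => by have := le_up x i; linarith
  have h2 : ∑ i, (x i - avg x) < 0 := sum_neg (fun i _ => h1 i) univ_nonempty
  rw [sum_sub_avg] at h2; exact lt_irrefl _ h2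

/-- if one of the two deviations vanishes, then `x` is constant -/
lemma const_of_up {x : Fin n → ℝ} (h : up x = 0) : ∀ i, x i = avg x := by
  have h1 : ∀ i, 0 ≤ avg x - x i := fun i => by have := le_up x i; linarith
  have h2 : ∑ i, (avg x - x i) = 0 := by
    have := sum_sub_avg x
    rw [← neg_eq_zero, ← sum_neg_distrib]; simpa using this
  intro i
  have := (sum_eq_zero_iff_of_nonneg (fun i _ => h1 i)).1 h2 i (mem_univ i)
  linarith

lemma const_of_dn {x : Fin n → ℝ} (h : dn x = 0) : ∀ i, x i = avg x := by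
  have h1 : ∀ i, 0 ≤ x i - avg x := fun i => by have := le_dn x i; linarith
  have h2 : ∑ i, (x i - avg x) = 0 := sum_sub_avg x
  intro i
  have := (sum_eq_zero_iff_of_nonneg (fun i _ => h1 i)).1 h2 i (mem_univ i)
  linarith

lemma resc_of_const {x : Fin n → ℝ} (h : ∀ i, x i = avg x) (c : ℝ) : resc c x = x := by
  funext i; simp only [resc]; rw [h i]; simp

lemma up_of_const {x : Fin n → ℝ} (h : ∀ i, x i = avg x) : up x = 0 := by
  unfold up
  apply le_antisymm
  · apply Finset.sup'_le; intro i _; rw [h i]; simp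
  · exact up_nonneg x

lemma dn_of_const {x : Fin n → ℝ} (h : ∀ i, x i = avg x) : dn x = 0 := by
  unfold dn
  apply le_antisymm
  · apply Finset.sup'_le; intro i _; rw [h i]; simp
  · exact dn_nonneg x

/-- the block of `B⁺` -/
def T (n : ℕ) : Set (Fin n → ℝ) := {x | ∑ i, x i ≤ 1 ∧ ∀ i, 0 ≤ x i ∧ x i ≤ 1}

/-- the block of `B(·,0,t)` -/
def Tt (n : ℕ) (t : ℝ) : Set (Fin n → ℝ) := {x | ∑ i, x i ≤ 1 ∧ ∀ i, 0 ≤ x i ∧ x i ≤ t}

/-- contraction factor -/
noncomputable def lam (t : ℝ) (x : Fin n → ℝ) : ℝ :=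
  min 1 (dn x * (t - avg x) / (avg x * up x))

/-- expansion factor -/
noncomputable def mu (t : ℝ) (x : Fin n → ℝ) : ℝ :=
  max 1 (avg x * up x / (dn x * (t - avg x)))

lemma avg_nonneg {x : Fin n → ℝ} (h : ∀ i, 0 ≤ x i) : 0 ≤ avg x :=
  div_nonneg (sum_nonneg fun i _ => h i) (Nat.cast_nonneg _)

lemma avg_lt {t : ℝ} (hn : 1 < n * t) {x : Fin n → ℝ} (h : ∑ i, x i ≤ 1) : avg x < t := by
  have h0 := ncast_pos (n := n)
  have := sum_eq x
  by_contra hc
  push Not at hc
  nlinarith

lemma const_of_avg {x : Fin n → ℝ} (h : ∀ i, 0 ≤ x i) (h0 : avg x = 0) : ∀ i, x i = avg x := by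
  have h1 : ∑ i, x i = 0 := by rw [sum_eq, h0, mul_zero]
  intro i
  rw [h0]
  exact (sum_eq_zero_iff_of_nonneg (fun i _ => h i)).1 h1 i (mem_univ i)

/-- a nonconstant nonnegative vector has everything positive -/
lemma pos_of_not_const {x : Fin n → ℝ} (h : ∀ i, 0 ≤ x i) (hc : ¬ ∀ i, x i = avg x) :
    0 < avg x ∧ 0 < up x ∧ 0 < dn x := by
  refine ⟨?_, ?_, ?_⟩
  · exact lt_of_le_of_ne (avg_nonneg h) fun e => hc (const_of_avg h e.symm)
  · exact lt_of_le_of_ne (up_nonneg x) fun e => hc (const_of_up e.symm)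
  · exact lt_of_le_of_ne (dn_nonneg x) fun e => hc (const_of_dn e.symm)

lemma dn_le_avg {x : Fin n → ℝ} (h : ∀ i, 0 ≤ x i) : dn x ≤ avg x := by
  unfold dn
  apply Finset.sup'_le; intro i _; have := h i; linarith

lemma lam_pos {t : ℝ} (hn : 1 < n * t) {x : Fin n → ℝ} (hx : x ∈ T n)
    (hc : ¬ ∀ i, x i = avg x) : 0 < lam t x := by
  obtain ⟨h1, h2, h3⟩ := pos_of_not_const (fun i => (hx.2 i).1) hc
  have h4 := avg_lt hn hx.1
  unfold lam
  apply lt_min one_pos
  have : 0 < t - avg x := by linarith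
  positivity

lemma lam_nonneg {t : ℝ} (hn : 1 < n * t) {x : Fin n → ℝ} (hx : x ∈ T n) : 0 ≤ lam t x := by
  have h4 := avg_lt hn hx.1
  unfold lam
  apply le_min zero_le_one
  have h5 : 0 ≤ t - avg x := by linarith
  have h1 := avg_nonneg (fun i => (hx.2 i).1)
  have h2 := up_nonneg x
  have h3 := dn_nonneg x
  positivity

lemma phi_mem {t : ℝ} (hn : 1 < n * t) {x : Fin n → ℝ} (hx : x ∈ T n) :
    resc (lam t x) x ∈ Tt n t := by
  refine ⟨by rw [sum_resc]; exact hx.1, ?_⟩
  have hlt := avg_lt hn hx.1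
  by_cases hc : ∀ i, x i = avg x
  · rw [resc_of_const hc]
    intro i
    exact ⟨(hx.2 i).1, by rw [hc i]; exact hlt.le⟩
  · obtain ⟨h1, h2, h3⟩ := pos_of_not_const (fun i => (hx.2 i).1) hc
    have hl := lam_nonneg hn hx
    have hd := dn_resc hl x
    have hu := up_resc hl x
    have hl1 : lam t x ≤ 1 := min_le_left _ _
    have hl2 : lam t x ≤ dn x * (t - avg x) / (avg x * up x) := min_le_right _ _
    have h5 : 0 < t - avg x := by linarith
    have h6 : lam t x * up x ≤ t - avg x := by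
      have : lam t x * (avg x * up x) ≤ dn x * (t - avg x) := by
        rwa [le_div_iff₀ (by positivity)] at hl2
      have h7 : dn x ≤ avg x := dn_le_avg (fun i => (hx.2 i).1)
      have h8 : avg x * (lam t x * up x) ≤ avg x * (t - avg x) := by nlinarith
      exact le_of_mul_le_mul_left h8 h1
    intro i
    have e1 := le_dn (resc (lam t x) x) i
    have e2 := le_up (resc (lam t x) x) i
    rw [avg_resc] at e1 e2
    rw [hd] at e1
    rw [hu] at e2
    have h7 : dn x ≤ avg x := dn_le_avg (fun i => (hx.2 i).1)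
    constructor
    · have : lam t x * dn x ≤ avg x := by nlinarith
      linarith
    · linarith

lemma mu_pos (t : ℝ) (x : Fin n → ℝ) : 0 < mu t x := lt_of_lt_of_le one_pos (le_max_left _ _)

lemma psi_mem {t : ℝ} (hn : 1 < n * t) {x : Fin n → ℝ} (hx : x ∈ Tt n t) :
    resc (mu t x) x ∈ T n := by
  have hs : ∑ i, resc (mu t x) x i ≤ 1 := by rw [sum_resc]; exact hx.1
  have hlt := avg_lt hn hx.1
  have hnn : ∀ i, 0 ≤ resc (mu t x) x i := by
    by_cases hc : ∀ i, x i = avg x
    · rw [resc_of_const hc]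
      intro i
      exact (hx.2 i).1
    · obtain ⟨h1, h2, h3⟩ := pos_of_not_const (fun i => (hx.2 i).1) hc
      have hd := dn_resc (mu_pos t x).le x
      have h5 : 0 < t - avg x := by linarith
      have h7 : dn x ≤ avg x := dn_le_avg (fun i => (hx.2 i).1)
      have h8 : up x ≤ t - avg x := by
        unfold up
        apply Finset.sup'_le; intro i _; have := (hx.2 i).2; linarith
      have h9 : mu t x * dn x ≤ avg x := by
        unfold mu
        rw [max_mul_of_nonneg _ _ h3.le]
        apply max_le (by linarith)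
        rw [div_mul_eq_mul_div, div_le_iff₀ (by positivity)]
        nlinarith [mul_pos h1 h3]
      intro i
      have e1 := le_dn (resc (mu t x) x) i
      rw [avg_resc, hd] at e1
      linarith
  refine ⟨hs, fun i => ⟨hnn i, ?_⟩⟩
  exact le_trans (single_le_sum (fun i _ => hnn i) (mem_univ i)) hs

lemma psi_phi {t : ℝ} (hn : 1 < n * t) {x : Fin n → ℝ} (hx : x ∈ T n) :
    resc (mu t (resc (lam t x) x)) (resc (lam t x) x) = x := by
  by_cases hc : ∀ i, x i = avg x
  · rw [resc_of_const hc, resc_of_const hc]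
  · obtain ⟨h1, h2, h3⟩ := pos_of_not_const (fun i => (hx.2 i).1) hc
    have hlt := avg_lt hn hx.1
    have hl := lam_pos hn hx hc
    have h5 : 0 < t - avg x := by linarith
    rw [resc_resc]
    have : mu t (resc (lam t x) x) * lam t x = 1 := by
      have e : avg x * (lam t x * up x) / (lam t x * dn x * (t - avg x))
          = avg x * up x / (dn x * (t - avg x)) := by
        field_simp
      unfold mu
      rw [avg_resc, dn_resc hl.le, up_resc hl.le, e]
      unfold lam
      set A := avg x * up x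
      set D := dn x * (t - avg x)
      have hA : 0 < A := by positivity
      have hD : 0 < D := by positivity
      rcases le_total A D with h | h
      · rw [max_eq_left (by rw [div_le_one hD]; exact h),
          min_eq_left (by rw [le_div_iff₀ hA]; linarith), one_mul]
      · rw [max_eq_right (by rw [le_div_iff₀ hD]; linarith),
          min_eq_right (by rw [div_le_one hA]; exact h)]
        field_simp
    rw [this, resc_one]

lemma phi_psi {t : ℝ} (hn : 1 < n * t) {x : Fin n → ℝ} (hx : x ∈ Tt n t) :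
    resc (lam t (resc (mu t x) x)) (resc (mu t x) x) = x := by
  by_cases hc : ∀ i, x i = avg x
  · rw [resc_of_const hc, resc_of_const hc]
  · obtain ⟨h1, h2, h3⟩ := pos_of_not_const (fun i => (hx.2 i).1) hc
    have hlt := avg_lt hn hx.1
    have hl := mu_pos t x
    have h5 : 0 < t - avg x := by linarith
    rw [resc_resc]
    have : lam t (resc (mu t x) x) * mu t x = 1 := by
      have e : mu t x * dn x * (t - avg x) / (avg x * (mu t x * up x))
          = dn x * (t - avg x) / (avg x * up x) := by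
        field_simp
      unfold lam
      rw [avg_resc, dn_resc hl.le, up_resc hl.le, e]
      unfold mu
      set A := avg x * up x
      set D := dn x * (t - avg x)
      have hA : 0 < A := by positivity
      have hD : 0 < D := by positivity
      rcases le_total A D with h | h
      · rw [max_eq_left (by rw [div_le_one hD]; exact h),
          min_eq_left (by rw [le_div_iff₀ hA]; linarith), one_mul]
      · rw [max_eq_right (by rw [le_div_iff₀ hD]; linarith),
          min_eq_right (by rw [div_le_one hA]; exact h)]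
        field_simp
    rw [this, resc_one]

lemma continuous_avg : Continuous (avg : (Fin n → ℝ) → ℝ) := by
  unfold avg; fun_prop

lemma continuous_dn : Continuous (dn : (Fin n → ℝ) → ℝ) := by
  unfold dn
  apply Continuous.finset_sup'_apply
  intro i _
  have := continuous_avg (n := n)
  fun_prop

lemma continuous_up : Continuous (up : (Fin n → ℝ) → ℝ) := by
  unfold up
  apply Continuous.finset_sup'_apply
  intro i _
  have := continuous_avg (n := n)
  fun_prop

lemma continuousOn_phi {t : ℝ} (hn : 1 < n * t) :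
    ContinuousOn (fun x : Fin n → ℝ => resc (lam t x) x) (T n) := by
  intro x hx
  rw [continuousWithinAt_pi]
  intro i
  have ha := continuous_avg (n := n)
  have hd := continuous_dn (n := n)
  have hu := continuous_up (n := n)
  simp only [resc]
  apply ContinuousWithinAt.add ha.continuousWithinAt
  by_cases hc : ∀ i, x i = avg x
  · have h0 : x i - avg x = 0 := by rw [hc i]; simp
    have h1 : Filter.Tendsto (fun y : Fin n → ℝ => y i - avg y) (nhdsWithin x (T n)) (nhds 0) := by
      have : ContinuousWithinAt (fun y : Fin n → ℝ => y i - avg y) (T n) x := by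
        apply Continuous.continuousWithinAt; fun_prop
      unfold ContinuousWithinAt at this
      simpa only [h0] using this
    unfold ContinuousWithinAt
    simp only [h0, mul_zero]
    apply squeeze_zero_norm' _ (by simpa using h1.norm)
    filter_upwards [self_mem_nhdsWithin] with y hy
    rw [norm_mul]
    have h3 : ‖lam t y‖ ≤ 1 := by
      rw [Real.norm_of_nonneg (lam_nonneg hn hy)]; exact min_le_left _ _
    calc ‖lam t y‖ * ‖y i - avg y‖ ≤ 1 * ‖y i - avg y‖ :=
          mul_le_mul_of_nonneg_right h3 (norm_nonneg _)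
      _ = ‖y i - avg y‖ := one_mul _
  · obtain ⟨h1, h2, h3⟩ := pos_of_not_const (fun i => (hx.2 i).1) hc
    apply ContinuousWithinAt.mul
    · have h4 : ContinuousWithinAt
          (fun x : Fin n → ℝ => dn x * (t - avg x) / (avg x * up x)) (T n) x := by
        apply ContinuousWithinAt.div
        · apply Continuous.continuousWithinAt; fun_prop
        · apply Continuous.continuousWithinAt; fun_prop
        · positivity
      exact Filter.Tendsto.min tendsto_const_nhds h4
    · apply Continuous.continuousWithinAt; fun_prop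

lemma isCompact_T : IsCompact (T n) := by
  have h1 : T n = {x | ∑ i, x i ≤ 1} ∩ Set.pi Set.univ (fun _ => Set.Icc (0 : ℝ) 1) := by
    ext x
    simp only [T, Set.mem_ofPred_eq, Set.mem_inter_iff, Set.mem_pi, Set.mem_univ, true_implies,
      Set.mem_Icc]
  rw [h1]
  apply IsCompact.inter_left
  · exact isCompact_univ_pi fun _ => isCompact_Icc
  · apply isClosed_le <;> fun_prop

/-- the equivalence of blocks -/
noncomputable def blockEquiv {t : ℝ} (hn : 1 < n * t) : T n ≃ Tt n t where
  toFun x := ⟨resc (lam t x.1) x.1, phi_mem hn x.2⟩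
  invFun x := ⟨resc (mu t x.1) x.1, psi_mem hn x.2⟩
  left_inv x := Subtype.ext (psi_phi hn x.2)
  right_inv x := Subtype.ext (phi_psi hn x.2)

lemma block_homeo {t : ℝ} (hn : 1 < n * t) :
    ∃ h : T n ≃ₜ Tt n t, ∀ x, ∑ i, (h x).1 i = ∑ i, x.1 i := by
  have : CompactSpace (T n) := isCompact_iff_compactSpace.1 isCompact_T
  have hc : Continuous (blockEquiv hn) := by
    apply Continuous.subtype_mk
    exact continuousOn_iff_continuous_domRestrict.1 (continuousOn_phi hn)
  exact ⟨hc.homeoOfEquivCompactToT2, fun x => sum_resc _ _⟩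

end block

/-- A point of `B(κ × Fin n, 0, t)` restricted to a block. -/
lemma block_sum {κ : Type u} {n : ℕ} {x : κ × Fin n → ℝ} (h0 : ∀ p, 0 ≤ x p) :
    ∑' p, ENNReal.ofReal |x p| = ∑' k, ENNReal.ofReal (∑ i, x (k, i)) := by
  rw [ENNReal.tsum_prod']
  congr 1
  funext k
  rw [tsum_fintype, ENNReal.ofReal_sum_of_nonneg (fun i _ => h0 _)]
  apply Finset.sum_congr rfl
  intro i _
  rw [abs_of_nonneg (h0 _)]

lemma block_le {κ : Type u} {n : ℕ} {x : κ × Fin n → ℝ} (h0 : ∀ p, 0 ≤ x p)
    (h : ∑' p, ENNReal.ofReal |x p| ≤ 1) (k : κ) : ∑ i, x (k, i) ≤ 1 := by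
  rw [block_sum h0] at h
  have h1 := le_trans (ENNReal.le_tsum k) h
  rwa [ENNReal.ofReal_le_one] at h1

/-- gluing the homeomorphisms of the blocks -/
lemma glue {κ : Type u} {n : ℕ} {s t : ℝ}
    (h : {x : Fin n → ℝ | ∑ i, x i ≤ 1 ∧ ∀ i, 0 ≤ x i ∧ x i ≤ s} ≃ₜ
      {x : Fin n → ℝ | ∑ i, x i ≤ 1 ∧ ∀ i, 0 ≤ x i ∧ x i ≤ t})
    (hs : ∀ x, ∑ i, (h x).1 i = ∑ i, x.1 i) :
    Nonempty (B (κ × Fin n) (fun _ => 0) (fun _ => s) ≃ₜ
      B (κ × Fin n) (fun _ => 0) (fun _ => t)) := by
  classical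
  -- a general construction, used twice
  have key : ∀ (s t : ℝ) (h : {x : Fin n → ℝ | ∑ i, x i ≤ 1 ∧ ∀ i, 0 ≤ x i ∧ x i ≤ s} ≃ₜ
      {x : Fin n → ℝ | ∑ i, x i ≤ 1 ∧ ∀ i, 0 ≤ x i ∧ x i ≤ t}),
      (∀ x, ∑ i, (h x).1 i = ∑ i, x.1 i) →
      ∃ F : B (κ × Fin n) (fun _ => 0) (fun _ => s) → B (κ × Fin n) (fun _ => 0) (fun _ => t),
        Continuous F ∧ ∀ (x : B (κ × Fin n) (fun _ => 0) (fun _ => s)) (k : κ) (hk),
          (fun i => (F x).1 (k, i)) = (h ⟨fun i => x.1 (k, i), hk⟩).1 := by
    intro s t h hs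
    have hmem : ∀ (x : B (κ × Fin n) (fun _ => 0) (fun _ => s)) (k : κ),
        (fun i => x.1 (k, i)) ∈
          {x : Fin n → ℝ | ∑ i, x i ≤ 1 ∧ ∀ i, 0 ≤ x i ∧ x i ≤ s} := fun x k =>
      ⟨block_le (fun p => (x.2.2 p).1) x.2.1 k, fun i => x.2.2 (k, i)⟩
    refine ⟨fun x => ⟨fun p => (h ⟨fun i => x.1 (p.1, i), hmem x p.1⟩).1 p.2, ?_, ?_⟩, ?_, ?_⟩
    · have h0 : ∀ p : κ × Fin n, 0 ≤ (h ⟨fun i => x.1 (p.1, i), hmem x p.1⟩).1 p.2 :=
        fun p => ((h ⟨fun i => x.1 (p.1, i), hmem x p.1⟩).2.2 p.2).1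
      rw [block_sum (x := fun p => (h ⟨fun i => x.1 (p.1, i), hmem x p.1⟩).1 p.2) h0]
      have h1 := x.2.1
      rw [block_sum (fun p => (x.2.2 p).1)] at h1
      have h2 : ∀ k, ∑ i, (h ⟨fun i => x.1 (k, i), hmem x k⟩).1 i = ∑ i, x.1 (k, i) :=
        fun k => hs ⟨fun i => x.1 (k, i), hmem x k⟩
      simp only [h2]
      exact h1
    · intro p
      exact (h ⟨fun i => x.1 (p.1, i), hmem x p.1⟩).2.2 p.2
    · apply Continuous.subtype_mk
      apply continuous_pi
      intro p
      apply (continuous_apply p.2).comp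
      apply continuous_subtype_val.comp
      apply h.continuous.comp
      apply Continuous.subtype_mk
      apply continuous_pi
      intro i
      exact (continuous_apply (p.1, i)).comp continuous_subtype_val
    · intro x k hk
      rfl
  obtain ⟨F, hF, hF'⟩ := key s t h hs
  obtain ⟨G, hG, hG'⟩ := key t s h.symm (fun x => by
    have := hs (h.symm x)
    rw [h.apply_symm_apply] at this
    exact this.symm)
  have hmem : ∀ (s : ℝ) (x : B (κ × Fin n) (fun _ => 0) (fun _ => s)) (k : κ),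
      (fun i => x.1 (k, i)) ∈
        {x : Fin n → ℝ | ∑ i, x i ≤ 1 ∧ ∀ i, 0 ≤ x i ∧ x i ≤ s} := fun s x k =>
    ⟨block_le (fun p => (x.2.2 p).1) x.2.1 k, fun i => x.2.2 (k, i)⟩
  refine ⟨⟨⟨F, G, ?_, ?_⟩, hF, hG⟩⟩
  · intro x
    apply Subtype.ext
    funext p
    obtain ⟨k, i⟩ := p
    have e1 := hG' (F x) k (hmem _ _ _)
    have e2 : (⟨fun i => (F x).1 (k, i), hmem _ (F x) k⟩ :
        {x : Fin n → ℝ | ∑ i, x i ≤ 1 ∧ ∀ i, 0 ≤ x i ∧ x i ≤ t})
        = h ⟨fun i => x.1 (k, i), hmem _ _ _⟩ := Subtype.ext (hF' x k (hmem _ _ _))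
    rw [e2, h.symm_apply_apply] at e1
    exact congrFun e1 i
  · intro x
    apply Subtype.ext
    funext p
    obtain ⟨k, i⟩ := p
    have e1 := hF' (G x) k (hmem _ _ _)
    have e2 : (⟨fun i => (G x).1 (k, i), hmem _ (G x) k⟩ :
        {x : Fin n → ℝ | ∑ i, x i ≤ 1 ∧ ∀ i, 0 ≤ x i ∧ x i ≤ s})
        = h.symm ⟨fun i => x.1 (k, i), hmem _ _ _⟩ := Subtype.ext (hG' x k (hmem _ _ _))
    rw [e2, h.apply_symm_apply] at e1
    exact congrFun e1 i

/-- reindexing -/
lemma reindex {ι κ : Type u} (e : ι ≃ κ) (t : ℝ) :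
    Nonempty (B ι (fun _ => 0) (fun _ => t) ≃ₜ B κ (fun _ => 0) (fun _ => t)) := by
  have key : ∀ {ι κ : Type u} (e : ι ≃ κ) (x : ι → ℝ), x ∈ B ι (fun _ => 0) (fun _ => t) →
      (fun k => x (e.symm k)) ∈ B κ (fun _ => 0) (fun _ => t) := by
    intro ι κ e x hx
    refine ⟨?_, fun k => hx.2 _⟩
    have := e.symm.tsum_eq (fun i => ENNReal.ofReal |x i|)
    rw [this]
    exact hx.1
  refine ⟨⟨⟨fun x => ⟨fun k => x.1 (e.symm k), key e x.1 x.2⟩,
    fun x => ⟨fun i => x.1 (e i), by simpa using key e.symm x.1 x.2⟩, ?_, ?_⟩, ?_, ?_⟩⟩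
  · intro x; apply Subtype.ext; funext i; simp
  · intro x; apply Subtype.ext; funext i; simp
  · apply Continuous.subtype_mk
    apply continuous_pi
    intro k
    exact (continuous_apply _).comp continuous_subtype_val
  · apply Continuous.subtype_mk
    apply continuous_pi
    intro k
    exact (continuous_apply _).comp continuous_subtype_val

/-- `B⁺(ι)` is homeomorphic to `B(ι,0,t)`. -/
lemma plus_homeo (ι : Type u) [Infinite ι] (t : ℝ) (ht0 : 0 < t) :
    Nonempty (B ι (fun _ => 0) (fun _ => 1) ≃ₜ B ι (fun _ => 0) (fun _ => t)) := by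
  obtain ⟨n, hn⟩ := exists_nat_gt (1 / t)
  have hn' : 1 < n * t := by rwa [div_lt_iff₀ ht0] at hn
  have hn0 : n ≠ 0 := by rintro rfl; simp at hn'; linarith
  have : NeZero n := ⟨hn0⟩
  obtain ⟨h, hs⟩ := block_homeo (n := n) hn'
  obtain ⟨g⟩ := glue (κ := ι) (s := 1) (t := t) h hs
  have hcard : Cardinal.mk ι = Cardinal.mk (ι × Fin n) := by
    rw [Cardinal.mk_prod]
    simp only [Cardinal.lift_uzero, Cardinal.mk_fin, Cardinal.lift_natCast]
    rw [Cardinal.mul_eq_left (Cardinal.aleph0_le_mk ι)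
      ((Cardinal.natCast_lt_aleph0 (n := n)).le.trans (Cardinal.aleph0_le_mk ι))
      (by exact_mod_cast hn0)]
  obtain ⟨e⟩ := Cardinal.eq.1 hcard
  obtain ⟨g1⟩ := reindex e 1
  obtain ⟨g2⟩ := reindex e t
  exact ⟨g1.trans (g.trans g2.symm)⟩

/-- **Positive answer to Q1.**  For every infinite index set `ι` (in particular for every
uncountable cardinal) and all `s, t ∈ (0,1]`, the spaces `B(ι,0,s)` and `B(ι,0,t)` are
homeomorphic.  Taking `s = 1`, the space `B⁺(ι) = B(ι,0,1)` is homeomorphic to all the truncations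
`B(ι,0,t)`, `0 < t < 1`. -/
theorem result (ι : Type u) [Infinite ι] (s t : ℝ) (hs : 0 < s ∧ s ≤ 1) (ht : 0 < t ∧ t ≤ 1) :
    Nonempty (B ι (fun _ => 0) (fun _ => s) ≃ₜ B ι (fun _ => 0) (fun _ => t)) := by
  obtain ⟨g1⟩ := plus_homeo ι s hs.1
  obtain ⟨g2⟩ := plus_homeo ι t ht.1
  exact ⟨g1.symm.trans g2⟩

end Pool.Agent.Results.MP_ca7a0e_gt.PositiveTruncation
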